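import Pool.Agent.H24.PS5
import Pool.Agent.H24.PS6

open Finset

namespace Pool.Agent.Results.MP_574c26_nt.Threshold

/-- The restricted sumset: all sums `a + a'` with `a, a' ∈ A` and `a ≠ a'`. -/
def restrictedSumset (A : Finset ℕ) : Finset ℕ := A.offDiag.image (fun p => p.1 + p.2)

/-- `P(k, N)`: every partition of `[N] = {1, …, N}` into `k` (nonempty, pairwise disjoint) parts
satisfies `|⋃ᵢ (Aᵢ +̂ Aᵢ)| ≥ N / 10`. -/
def P (k N : ℕ) : Prop :=
  ∀ Q : Finpartition (Finset.Icc 1 N), Q.parts.card = k →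
    (N : ℝ) / 10 ≤ ((Q.parts.biUnion restrictedSumset).card : ℝ)

lemma fails (ε : ℝ) (hε : 0 < ε) :
    ∃ N₀ : ℕ, ∀ N : ℕ, N₀ ≤ N → ∀ k : ℕ, (N : ℝ) ^ ε ≤ k → k ≤ N → ¬ P k N := by
  classical
  obtain ⟨N₀, _, h⟩ := Pool.Agent.H24.PS.main_coloring ε hε
  refine ⟨N₀, ?_⟩
  intro N hN k hk hkN hP
  obtain ⟨J, m, q, K, c, hcard, hs⟩ := h N hN
  have h1 : ((Icc 1 N).image c).card ≤ k := by
    have h2 : ((Icc 1 N).image c).card ≤ Fintype.card (Pool.Agent.H24.PS.Col J m q K) :=
      Finset.card_le_univ _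
    have h3 : (((Icc 1 N).image c).card : ℝ) ≤ k := by
      have : (((Icc 1 N).image c).card : ℝ) ≤
          (Fintype.card (Pool.Agent.H24.PS.Col J m q K) : ℝ) := by exact_mod_cast h2
      linarith
    exact_mod_cast h3
  obtain ⟨f, hf1, hf2⟩ := Pool.Agent.H24.PS.exists_refinement c N k h1 hkN
  obtain ⟨Q, hQ1, hQ2⟩ := Pool.Agent.H24.PS.exists_finpartition f N
  have h4 := hP Q (hQ1.trans hf1)
  have h5 := hs (Q.parts.biUnion restrictedSumset) (by
    intro x hx
    rw [Finset.mem_biUnion] at hx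
    obtain ⟨A, hA, hxA⟩ := hx
    unfold restrictedSumset at hxA
    obtain ⟨p, hp, rfl⟩ := Finset.mem_image.mp hxA
    rw [Finset.mem_offDiag] at hp
    obtain ⟨ha, hb, hfab⟩ := hQ2 A hA p.1 hp.1 p.2 hp.2.1
    exact ⟨p.1, ha, p.2, hb, hp.2.2, hf2 _ _ hp.2.2 hfab, rfl⟩)
  linarith

lemma holds (N k : ℕ) (h : 10 * (k * rothNumberNat N) ≤ 9 * N) : P k N := by
  classical
  intro Q hQ
  set S := Q.parts.biUnion restrictedSumset with hS
  have h1 : ∀ A ∈ Q.parts, (A.filter (fun n => 2 * n ∉ S)).card ≤ rothNumberNat N := by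
    intro A hA
    have hfree : ThreeAPFree ((A.filter (fun n => 2 * n ∉ S) : Finset ℕ) : Set ℕ) := by
      rw [threeAPFree_iff_eq_right]
      intro a ha b hb c hc habc
      simp only [Finset.coe_filter, Set.mem_ofPred_eq] at ha hb hc
      by_contra hac
      apply hb.2
      rw [hS, Finset.mem_biUnion]
      refine ⟨A, hA, ?_⟩
      unfold restrictedSumset
      refine Finset.mem_image.mpr ⟨(a, c), ?_, ?_⟩
      · rw [Finset.mem_offDiag]
        exact ⟨ha.1, hc.1, hac⟩
      · simp only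
        omega
    have hsub : A.filter (fun n => 2 * n ∉ S) ⊆ Finset.Ico 1 (N + 1) := by
      intro x hx
      rw [Finset.mem_filter] at hx
      have := Q.le hA hx.1
      simp only [Finset.mem_Icc] at this
      simp only [Finset.mem_Ico]
      omega
    have := ThreeAPFree.le_addRothNumber hfree hsub
    rwa [addRothNumber_Ico, Nat.add_sub_cancel] at this
  have h2 : ((Icc 1 N).filter (fun n => 2 * n ∉ S)).card ≤ k * rothNumberNat N := by
    have hsub : (Icc 1 N).filter (fun n => 2 * n ∉ S) ⊆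
        Q.parts.biUnion (fun A => A.filter (fun n => 2 * n ∉ S)) := by
      intro x hx
      rw [Finset.mem_filter] at hx
      rw [Finset.mem_biUnion]
      obtain ⟨A, hA, hxA⟩ := Q.exists_mem hx.1
      exact ⟨A, hA, by rw [Finset.mem_filter]; exact ⟨hxA, hx.2⟩⟩
    calc _ ≤ (Q.parts.biUnion (fun A => A.filter (fun n => 2 * n ∉ S))).card :=
          Finset.card_le_card hsub
      _ ≤ ∑ A ∈ Q.parts, (A.filter (fun n => 2 * n ∉ S)).card := Finset.card_biUnion_le
      _ ≤ ∑ _A ∈ Q.parts, rothNumberNat N := Finset.sum_le_sum h1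
      _ = k * rothNumberNat N := by simp [hQ]
  have h3 : ((Icc 1 N).filter (fun n => 2 * n ∈ S)).card ≤ S.card := by
    apply Finset.card_le_card_of_injOn (fun n => 2 * n)
    · intro x hx
      simp only [Finset.coe_filter, Set.mem_ofPred_eq] at hx
      exact hx.2
    · intro x _ y _ hxy
      simp only at hxy
      omega
  have h4 : ((Icc 1 N).filter (fun n => 2 * n ∈ S)).card
      + ((Icc 1 N).filter (fun n => 2 * n ∉ S)).card = N := by
    rw [Finset.card_filter_add_card_filter_not]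
    simp
  have h5 : N ≤ 10 * S.card := by omega
  have h6 : (N : ℝ) ≤ 10 * (S.card : ℝ) := by exact_mod_cast h5
  linarith

/-- `P(k, N)` fails for every `k` between `N ^ ε` and `N` once `N` is large, and holds for every
`k ≤ 0.9 N / r₃(N)`, where `r₃(N)` is the largest size of a subset of an interval of `N` integers
without three-term arithmetic progressions. -/
theorem result :
    (∀ ε : ℝ, 0 < ε → ∃ N₀ : ℕ, ∀ N : ℕ, N₀ ≤ N → ∀ k : ℕ,
      (N : ℝ) ^ ε ≤ k → k ≤ N → ¬ P k N) ∧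
    (∀ N k : ℕ, 10 * (k * rothNumberNat N) ≤ 9 * N → P k N) :=
  ⟨fails, fun N k h => holds N k h⟩

end Pool.Agent.Results.MP_574c26_nt.Threshold
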